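import Pool.Agent.Helper50.AY.St

/-!
Project AY (MP_b3ce06_al), module PFA: perfectness.
-/

set_option autoImplicit false

namespace Pool.Agent.Helper51.AY

open Pool.Agent.Helper50.AY Pool.Agent.Helper43.GD Polynomial

theorem hPFA : StPFA := by
  intro L H _ _ x s hR h1 hx hgp
  have ht := s.tor_of_weyl h1 hx
  obtain ⟨v, hv⟩ := hR.un
  have hvi : (v : L) * ((v⁻¹ : Lˣ) : L) = 1 := v.mul_inv
  have hxi : (x : L) * ((x⁻¹ : Lˣ) : L) = 1 := x.mul_inv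
  have hcomm : ∀ g k : H, g * k * g⁻¹ * k⁻¹ ∈ commutator H := by
    intro g k
    rw [commutator_def]
    exact Subgroup.commutator_mem_commutator (Subgroup.mem_top g) (Subgroup.mem_top k)
  have hE : ∀ a, s.E a ∈ commutator H := by
    intro a
    have h2 := hcomm (s.om x * (s.om 1)⁻¹) (s.E (((v⁻¹ : Lˣ) : L) * a))
    rw [ht.1, ← s.E_neg, ← s.Eadd] at h2
    have e : ((x * x * 1⁻¹ * 1⁻¹ : Lˣ) : L) * (((v⁻¹ : Lˣ) : L) * a) +
        -(((v⁻¹ : Lˣ) : L) * a) = a := by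
      rw [inv_one, mul_one, mul_one, Units.val_mul]
      linear_combination (-((v⁻¹ : Lˣ) : L) * a) * hv + a * hvi
    rw [e] at h2
    exact h2
  have hF : ∀ b, s.F b ∈ commutator H := by
    intro b
    have h2 := hcomm (s.om x * (s.om 1)⁻¹)
      (s.F (-(((v⁻¹ : Lˣ) : L) * ((x : L) * (x : L) * b))))
    rw [ht.2, ← s.F_neg, ← s.Fadd] at h2
    have e : (((x * x * 1⁻¹ * 1⁻¹ : Lˣ)⁻¹ : Lˣ) : L) *
        (-(((v⁻¹ : Lˣ) : L) * ((x : L) * (x : L) * b))) +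
        -(-(((v⁻¹ : Lˣ) : L) * ((x : L) * (x : L) * b))) = b := by
      rw [inv_one, mul_one, mul_one, mul_inv, Units.val_mul]
      linear_combination (-((v⁻¹ : Lˣ) : L) * b) * hv + b * hvi -
        (((v⁻¹ : Lˣ) : L) * b * ((x : L) * ((x⁻¹ : Lˣ) : L) + 1)) * hxi
    rw [e] at h2
    exact h2
  rw [eq_top_iff, ← hgp]
  unfold Sys.gp
  rw [Subgroup.closure_le]
  rintro g (⟨a, rfl⟩ | ⟨b, rfl⟩)
  · exact hE a
  · exact hF b

end Pool.Agent.Helper51.AY
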